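import Pool.Agent.H95.TdcB

set_option autoImplicit false

open Pool.Agent.H95.Tdc

theorem Pool.Agent.Results.MP_13fe47_al.Quot.result :
    ∀ (G : Type) [Group G], VirtAb G → ∀ X : Finset G, Subgroup.closure (X : Set G) = ⊤ →
      ∀ φ : G →* G, tdc X φ = quotInf φ :=
  fun _ _ h X hX φ => main h X hX φ
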